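import Mathlib

set_option autoImplicit false

open scoped RealInnerProductSpace

namespace Pool.Agent.Results.MP_02ff8d_an.Dichotomy

section Defs

variable {X : Type*} [NormedAddCommGroup X] [InnerProductSpace ℝ X]

/-- The Legendre-Fenchel conjugate `f^*(y) = sup_x (⟪y, x⟫ - f x)` of an extended real-valued
function on a real inner product space. -/
noncomputable def conj (f : X → EReal) (y : X) : EReal :=
  ⨆ x : X, (((⟪y, x⟫ : ℝ) : EReal) - f x)

/-- `f` solves the equation `f x = τ f^*(E x + c) + ⟪w, x⟫ + β` for all `x`. -/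
def IsSolution (τ : ℝ) (c w : X) (β : ℝ) (E : X ≃L[ℝ] X) (f : X → EReal) : Prop :=
  ∀ x : X, f x = (τ : EReal) * conj f (E x + c) + ((⟪w, x⟫ : ℝ) : EReal) + (β : EReal)

/-- The invertible operator `E` is positive definite: self-adjoint with `⟪E x, x⟫ > 0` for `x ≠ 0`. -/
def IsPosDef (E : X ≃L[ℝ] X) : Prop :=
  (∀ x y : X, ⟪E x, y⟫ = ⟪x, E y⟫) ∧ ∀ x : X, x ≠ 0 → 0 < ⟪E x, x⟫

/-- The quadratic function `f₀ x = (1/2) ⟪A x, x⟫ + ⟪b, x⟫ + γ` with `A = √τ E`,
`b = (w + √τ c) / (1 + √τ)` and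
`γ = (β (1 + √τ)² + (1/2) √τ ⟪c - w, E⁻¹ (c - w)⟫) / ((1 + √τ)² (τ + 1))`. -/
noncomputable def f₀ (τ : ℝ) (c w : X) (β : ℝ) (E : X ≃L[ℝ] X) (x : X) : EReal :=
  (((1 / 2) * ⟪Real.sqrt τ • E x, x⟫ + ⟪(1 + Real.sqrt τ)⁻¹ • (w + Real.sqrt τ • c), x⟫ +
    (β * (1 + Real.sqrt τ) ^ 2 + (1 / 2) * Real.sqrt τ * ⟪c - w, E.symm (c - w)⟫) /
      ((1 + Real.sqrt τ) ^ 2 * (τ + 1)) : ℝ) : EReal)

end Defs

/-! ### The abstract minimality argument -/

section Abstract

variable {X : Type*}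

/-- Zorn step: below every admissible `f₁` there is an admissible solution. -/
theorem exists_le_solution (τ : ℝ) (hτ : 0 < τ) (b : X → X → ℝ) (S : X → X)
    (hS : Function.Surjective S) (κ : X → ℝ)
    (hb : ∀ x y, b x y = τ * b y (S x) + κ x)
    (f₁ : X → ℝ) (h1 : ∀ x y, b x y ≤ f₁ x + τ * f₁ y)
    (h2 : ∀ x, f₁ x = τ ^ 2 * f₁ (S x) + κ x) :
    ∃ f : X → ℝ, (∀ x, f x ≤ f₁ x) ∧
      ∀ x, IsLUB (Set.range fun y => b x y - τ * f y) (f x) := by
  classical
  -- the ordered set of admissible functions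
  let P : Set (X → ℝ) := {f | (∀ x y, b x y ≤ f x + τ * f y) ∧
    (∀ x, f x = τ ^ 2 * f (S x) + κ x)}
  have hP1 : f₁ ∈ P := ⟨h1, h2⟩
  -- chains have lower bounds
  have hchain : ∀ c ⊆ P, IsChain (· ≤ ·) c → ∀ y ∈ c, ∃ lb ∈ P, ∀ z ∈ c, lb ≤ z := by
    intro c hc hch y hy
    have hbdd : ∀ x, BddBelow (Set.range fun f : c => (f : X → ℝ) x) := by
      intro x
      refine ⟨b x x - τ * y x, ?_⟩
      rintro _ ⟨⟨f, hf⟩, rfl⟩
      -- compare `f` and `y`
      rcases hch.total hf hy with hle | hle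
      · have := (hc hf).1 x x
        have h3 : f x ≤ y x := hle x
        show b x x - τ * y x ≤ f x
        nlinarith [mul_le_mul_of_nonneg_left h3 hτ.le]
      · have := (hc hy).1 x x
        have h3 : y x ≤ f x := hle x
        show b x x - τ * y x ≤ f x
        linarith
    have : Nonempty c := ⟨⟨y, hy⟩⟩
    refine ⟨fun x => ⨅ f : c, (f : X → ℝ) x, ⟨?_, ?_⟩, ?_⟩
    · intro x y'
      -- for all f g in c, b x y' ≤ f x + τ g y'
      have key : ∀ f g : c, b x y' ≤ (f : X → ℝ) x + τ * (g : X → ℝ) y' := by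
        rintro ⟨f, hf⟩ ⟨g, hg⟩
        rcases hch.total hf hg with hle | hle
        · have h3 := (hc hf).1 x y'
          have h4 : f y' ≤ g y' := hle y'
          show b x y' ≤ f x + τ * g y'
          nlinarith [mul_le_mul_of_nonneg_left h4 hτ.le]
        · have h3 := (hc hg).1 x y'
          have h4 : g x ≤ f x := hle x
          show b x y' ≤ f x + τ * g y'
          linarith
      have step1 : ∀ g : c, b x y' - τ * (g : X → ℝ) y' ≤ ⨅ f : c, (f : X → ℝ) x := by
        intro g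
        refine le_ciInf fun f => ?_
        have := key f g
        linarith
      have step2 : (b x y' - ⨅ f : c, (f : X → ℝ) x) / τ ≤ ⨅ g : c, (g : X → ℝ) y' := by
        refine le_ciInf fun g => ?_
        rw [div_le_iff₀ hτ]
        have := step1 g
        linarith
      rw [div_le_iff₀ hτ] at step2
      linarith
    · intro x
      have hτ2 : 0 < τ ^ 2 := by positivity
      apply le_antisymm
      · -- inf f x ≤ τ² inf f (S x) + κ x
        have : (⨅ f : c, (f : X → ℝ) x) - κ x ≤ τ ^ 2 * ⨅ f : c, (f : X → ℝ) (S x) := by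
          have h5 : ((⨅ f : c, (f : X → ℝ) x) - κ x) / τ ^ 2 ≤ ⨅ f : c, (f : X → ℝ) (S x) := by
            refine le_ciInf fun f => ?_
            rw [div_le_iff₀ hτ2]
            have h6 := ciInf_le (hbdd x) f
            have h7 := (hc f.2).2 x
            linarith
          rw [div_le_iff₀ hτ2] at h5
          linarith
        linarith
      · refine le_ciInf fun f => ?_
        have h6 := ciInf_le (hbdd (S x)) f
        have h7 := (hc f.2).2 x
        have h8 := mul_le_mul_of_nonneg_left h6 hτ2.le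
        rw [h7]
        linarith
    · intro z hz x
      exact ciInf_le (hbdd x) ⟨z, hz⟩
  have hzorn : ∃ f : X → ℝ, f ∈ P ∧ f ≤ f₁ ∧ ∀ g : X → ℝ, g ∈ P → g ≤ f → f ≤ g := by
    obtain ⟨f, hfle, hfmin⟩ := zorn_le_nonempty₀ (α := (X → ℝ)ᵒᵈ) P
      (fun c hc hch y hy => hchain c hc (by
        intro a ha b hb hab
        exact (hch ha hb hab).symm) y hy) f₁ hP1
    exact ⟨OrderDual.ofDual f, hfmin.prop, hfle, fun g hg hgf => hfmin.2 hg hgf⟩
  obtain ⟨f, hfP, hfle, hfmin⟩ := hzorn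
  refine ⟨f, hfle, ?_⟩
  -- boundedness
  have hbd : ∀ x, BddAbove (Set.range fun y => b x y - τ * f y) := by
    intro x
    refine ⟨f x, ?_⟩
    rintro _ ⟨y, rfl⟩
    have := hfP.1 x y
    show b x y - τ * f y ≤ f x
    linarith
  by_cases hX : Nonempty X
  swap
  · intro x
    exact absurd ⟨x⟩ hX
  let T : X → ℝ := fun x => ⨆ y, (b x y - τ * f y)
  have hTle : ∀ x, T x ≤ f x := by
    intro x
    refine ciSup_le fun y => ?_
    have := hfP.1 x y
    linarith
  have hTge : ∀ x y, b x y - τ * f y ≤ T x := fun x y => le_ciSup (hbd x) y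
  have hT2 : ∀ x y, b x y ≤ f x + τ * T y := by
    intro x y
    have h3 := hTge y (S x)
    have h4 := hfP.2 x
    have h5 := hb x y
    nlinarith [mul_le_mul_of_nonneg_left h3 hτ.le]
  have hbSS : ∀ x y, b x y = τ ^ 2 * b (S x) (S y) + τ * κ y + κ x := by
    intro x y
    rw [hb x y, hb y (S x)]
    ring
  have hTinv : ∀ x, T x = τ ^ 2 * T (S x) + κ x := by
    intro x
    have hτ2 : 0 < τ ^ 2 := by positivity
    apply le_antisymm
    · refine ciSup_le fun y => ?_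
      have h3 := hTge (S x) (S y)
      have h4 := mul_le_mul_of_nonneg_left h3 hτ2.le
      have h5 := hbSS x y
      have h6 := hfP.2 y
      rw [h5, h6]
      nlinarith
    · have h7 : T (S x) ≤ (T x - κ x) / τ ^ 2 := by
        refine ciSup_le fun z => ?_
        obtain ⟨y, rfl⟩ := hS z
        rw [le_div_iff₀ hτ2]
        have h3 := hTge x y
        have h5 := hbSS x y
        have h6 := hfP.2 y
        rw [h5, h6] at h3
        nlinarith
      rw [le_div_iff₀ hτ2] at h7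
      linarith
  -- the average is admissible
  have hgP : (fun x => (f x + T x) / 2) ∈ P := by
    refine ⟨fun x y => ?_, fun x => ?_⟩
    · have h3 := hT2 x y
      have h4 := hTge x y
      show b x y ≤ (f x + T x) / 2 + τ * ((f y + T y) / 2)
      linarith
    · show (f x + T x) / 2 = τ ^ 2 * ((f (S x) + T (S x)) / 2) + κ x
      have h3 := hfP.2 x
      have h4 := hTinv x
      linarith
  have hmin2 : ∀ x, f x ≤ (f x + T x) / 2 := by
    have h8 : (fun x => (f x + T x) / 2) ≤ f := by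
      intro x
      show (f x + T x) / 2 ≤ f x
      have := hTle x
      linarith
    have h9 : f ≤ (fun x => (f x + T x) / 2) := hfmin _ hgP h8
    intro x
    exact h9 x
  have hTf : ∀ x, T x = f x := by
    intro x
    have := hmin2 x
    have := hTle x
    linarith
  intro x
  rw [← hTf x]
  exact isLUB_ciSup (hbd x)

end Abstract

section Main

variable {X : Type*} [NormedAddCommGroup X] [InnerProductSpace ℝ X]

/-- A real-valued function satisfying the real least-upper-bound form solves the equation. -/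
theorem isSolution_coe (τ : ℝ) (hτ : 0 < τ) (c w : X) (β : ℝ) (E : X ≃L[ℝ] X) (f : X → ℝ)
    (hf : ∀ x, IsLUB (Set.range fun y => (τ * ⟪E x + c, y⟫ + ⟪w, x⟫ + β) - τ * f y) (f x)) :
    IsSolution τ c w β E (fun x => ((f x : ℝ) : EReal)) := by
  intro x
  have key : conj (fun x => ((f x : ℝ) : EReal)) (E x + c) =
      (((f x - ⟪w, x⟫ - β) / τ : ℝ) : EReal) := by
    apply le_antisymm
    · refine iSup_le fun y => ?_
      rw [← EReal.coe_sub, EReal.coe_le_coe_iff, le_div_iff₀ hτ]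
      have h1 := (hf x).1 ⟨y, rfl⟩
      have h2 : (τ * ⟪E x + c, y⟫ + ⟪w, x⟫ + β) - τ * f y ≤ f x := h1
      linarith
    · refine le_of_forall_lt fun r hr => ?_
      rcases EReal.lt_iff_exists_real_btwn.1 hr with ⟨s, hrs, hs⟩
      rw [EReal.coe_lt_coe_iff, lt_div_iff₀ hτ] at hs
      have h3 : s * τ + ⟪w, x⟫ + β < f x := by linarith
      obtain ⟨_, ⟨y, rfl⟩, hy⟩ := (lt_isLUB_iff (hf x)).1 h3
      have h4 : s * τ + ⟪w, x⟫ + β < (τ * ⟪E x + c, y⟫ + ⟪w, x⟫ + β) - τ * f y := hy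
      have h5 : s < ⟪E x + c, y⟫ - f y := by
        nlinarith
      refine lt_of_lt_of_le hrs ?_
      refine le_trans ?_ (le_iSup (fun y => (((⟪E x + c, y⟫ : ℝ) : EReal) - (f y : EReal))) y)
      rw [← EReal.coe_sub, EReal.coe_le_coe_iff]
      exact h5.le
  rw [key, ← EReal.coe_mul, ← EReal.coe_add, ← EReal.coe_add, EReal.coe_eq_coe_iff]
  field_simp
  ring

/-- The real-valued version of `f₀`. -/
noncomputable def g₀ (τ : ℝ) (c w : X) (β : ℝ) (E : X ≃L[ℝ] X) (x : X) : ℝ :=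
  (1 / 2) * ⟪Real.sqrt τ • E x, x⟫ + ⟪(1 + Real.sqrt τ)⁻¹ • (w + Real.sqrt τ • c), x⟫ +
    (β * (1 + Real.sqrt τ) ^ 2 + (1 / 2) * Real.sqrt τ * ⟪c - w, E.symm (c - w)⟫) /
      ((1 + Real.sqrt τ) ^ 2 * (τ + 1))

theorem f₀_eq (τ : ℝ) (c w : X) (β : ℝ) (E : X ≃L[ℝ] X) :
    f₀ τ c w β E = fun x => ((g₀ τ c w β E x : ℝ) : EReal) := rfl

/-- The defect identity. -/
theorem defect (t : ℝ) (ht : 0 < t) (c w : X) (β : ℝ) (E : X ≃L[ℝ] X) (hE : IsPosDef E)
    (x y : X) :
    g₀ (t ^ 2) c w β E x + t ^ 2 * g₀ (t ^ 2) c w β E y -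
      (t ^ 2 * ⟪E x + c, y⟫ + ⟪w, x⟫ + β) =
    (t / 2) * ⟪E (t • y - x - (1 + t)⁻¹ • E.symm (c - w)),
      t • y - x - (1 + t)⁻¹ • E.symm (c - w)⟫ := by
  have hs : Real.sqrt (t ^ 2) = t := Real.sqrt_sq ht.le
  have h1t : (1 + t) ≠ 0 := by positivity
  have h1t2 : (t ^ 2 + 1) ≠ 0 := by positivity
  unfold g₀
  rw [hs]
  have e1 : ⟪E y, x⟫ = ⟪E x, y⟫ := by
    rw [hE.1 y x, real_inner_comm]
  have e2 : ∀ z, ⟪E z, E.symm (c - w)⟫ = ⟪c, z⟫ - ⟪w, z⟫ := by
    intro z
    rw [hE.1 z, ContinuousLinearEquiv.apply_symm_apply, real_inner_comm, inner_sub_left]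
  have e3 : ∀ z, ⟪c - w, z⟫ = ⟪c, z⟫ - ⟪w, z⟫ := fun z => inner_sub_left _ _ _
  simp only [map_sub, map_smul, inner_sub_left, inner_sub_right, inner_add_left,
    inner_smul_left, inner_smul_right, ContinuousLinearEquiv.apply_symm_apply, e1,
    RCLike.conj_to_real]
  have e4 : ⟪E x, E.symm c⟫ = ⟪c, x⟫ := by
    rw [hE.1 x, ContinuousLinearEquiv.apply_symm_apply, real_inner_comm]
  have e5 : ⟪E x, E.symm w⟫ = ⟪w, x⟫ := by
    rw [hE.1 x, ContinuousLinearEquiv.apply_symm_apply, real_inner_comm]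
  have e6 : ⟪E y, E.symm c⟫ = ⟪c, y⟫ := by
    rw [hE.1 y, ContinuousLinearEquiv.apply_symm_apply, real_inner_comm]
  have e7 : ⟪E y, E.symm w⟫ = ⟪w, y⟫ := by
    rw [hE.1 y, ContinuousLinearEquiv.apply_symm_apply, real_inner_comm]
  rw [e4, e5, e6, e7]
  field_simp
  ring

theorem inner_nonneg_of_posDef (E : X ≃L[ℝ] X) (hE : IsPosDef E) (x : X) : 0 ≤ ⟪E x, x⟫ := by
  by_cases h : x = 0
  · simp [h]
  · exact (hE.2 x h).le

/-- `f₀` is a solution. -/
theorem f₀_isSolution (τ : ℝ) (hτ : 0 < τ) (c w : X) (β : ℝ) (E : X ≃L[ℝ] X) (hE : IsPosDef E) :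
    IsSolution τ c w β E (f₀ τ c w β E) := by
  obtain ⟨t, ht, rfl⟩ : ∃ t : ℝ, 0 < t ∧ τ = t ^ 2 :=
    ⟨Real.sqrt τ, Real.sqrt_pos.2 hτ, (Real.sq_sqrt hτ.le).symm⟩
  rw [f₀_eq]
  apply isSolution_coe _ hτ
  intro x
  constructor
  · rintro _ ⟨y, rfl⟩
    have h1 := defect t ht c w β E hE x y
    have h2 := inner_nonneg_of_posDef E hE (t • y - x - (1 + t)⁻¹ • E.symm (c - w))
    show t ^ 2 * ⟪E x + c, y⟫ + ⟪w, x⟫ + β - t ^ 2 * g₀ (t ^ 2) c w β E y ≤ g₀ (t ^ 2) c w β E x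
    nlinarith [mul_nonneg (half_pos ht).le h2]
  · intro r hr
    have h1 := defect t ht c w β E hE x (t⁻¹ • (x + (1 + t)⁻¹ • E.symm (c - w)))
    rw [smul_inv_smul₀ ht.ne', add_sub_cancel_left, sub_self] at h1
    have h2 := hr ⟨t⁻¹ • (x + (1 + t)⁻¹ • E.symm (c - w)), rfl⟩
    simp only [map_zero, inner_zero_left, mul_zero] at h1
    linarith

theorem conj_antitone {f g : X → EReal} (h : ∀ x, f x ≤ g x) (y : X) : conj g y ≤ conj f y := by
  refine iSup_mono fun x => ?_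
  exact EReal.sub_le_sub le_rfl (h x)

theorem le_conj (f : X → EReal) (y x : X) : ((⟪y, x⟫ : ℝ) : EReal) - f x ≤ conj f y :=
  le_iSup (fun x => (((⟪y, x⟫ : ℝ) : EReal) - f x)) x

/-- Uniqueness for `τ = 1` and `c = w` (known; included to make the criterion two-sided). -/
theorem unique_of_eq (c : X) (β : ℝ) (E : X ≃L[ℝ] X) (hE : IsPosDef E) (f : X → EReal)
    (hf : IsSolution 1 c c β E f) : f = f₀ 1 c c β E := by
  have hf' : ∀ x, f x = conj f (E x + c) + ((⟪c, x⟫ : ℝ) : EReal) + (β : EReal) := by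
    intro x
    have := hf x
    rwa [EReal.coe_one, one_mul] at this
  -- `f` never takes the value `⊥`
  have hbot : ∀ x, f x ≠ ⊥ := by
    intro x hx
    have h1 : ∀ y, conj f y = ⊤ := by
      intro y
      have h2 := le_conj f y x
      rw [hx, EReal.coe_sub_bot] at h2
      exact top_le_iff.1 h2
    have h2 := hf' x
    rw [h1, EReal.top_add_coe, EReal.top_add_coe, hx] at h2
    exact absurd h2 (by simp)
  have hg : ∀ x, f₀ 1 c c β E x = (((1 / 2) * ⟪E x, x⟫ + ⟪c, x⟫ + β / 2 : ℝ) : EReal) := by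
    intro x
    unfold f₀
    rw [EReal.coe_eq_coe_iff, Real.sqrt_one, sub_self, map_zero, inner_zero_left, one_smul,
      one_smul]
    have h3 : ⟪((1 : ℝ) + 1)⁻¹ • (c + c), x⟫ = ⟪c, x⟫ := by
      rw [← two_smul ℝ c, smul_smul]
      norm_num
    rw [h3]
    ring
  have hge : ∀ x, f₀ 1 c c β E x ≤ f x := by
    intro x
    have h1 := hf' x
    have h2 := le_conj f (E x + c) x
    rw [hg]
    by_cases htop : f x = ⊤
    · rw [htop]
      exact le_top
    · lift f x to ℝ using ⟨htop, hbot x⟩ with r hr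
      -- the conjugate at `E x + c` is real
      have h4 : conj f (E x + c) = ((r - ⟪c, x⟫ - β : ℝ) : EReal) := by
        have h5 : conj f (E x + c) ≠ ⊤ := by
          intro h6
          rw [h6, EReal.top_add_coe, EReal.top_add_coe] at h1
          exact absurd h1 (by simp)
        have h6 : conj f (E x + c) ≠ ⊥ := by
          intro h6
          rw [h6, EReal.bot_add, EReal.bot_add] at h1
          exact absurd h1 (by simp)
        lift conj f (E x + c) to ℝ using ⟨h5, h6⟩ with q hq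
        rw [← EReal.coe_add, ← EReal.coe_add, EReal.coe_eq_coe_iff] at h1
        rw [EReal.coe_eq_coe_iff]
        linarith
      rw [h4, ← EReal.coe_sub, EReal.coe_le_coe_iff, inner_add_left] at h2
      rw [EReal.coe_le_coe_iff]
      linarith
  funext x
  refine le_antisymm ?_ (hge x)
  have h1 := f₀_isSolution 1 one_pos c c β E hE x
  rw [EReal.coe_one, one_mul] at h1
  rw [h1, hf' x]
  gcongr
  exact conj_antitone hge _

/-- Non-uniqueness as soon as `τ ≠ 1` or `c ≠ w`. -/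
theorem exists_other_solution [Nontrivial X] (τ : ℝ) (hτ : 0 < τ) (c w : X) (β : ℝ) (E : X ≃L[ℝ] X)
    (hE : IsPosDef E) (h : ¬ (τ = 1 ∧ c = w)) :
    ∃ f : X → ℝ, IsSolution τ c w β E (fun x => ((f x : ℝ) : EReal)) ∧
      ∃ x, f x < g₀ τ c w β E x := by
  obtain ⟨t, ht, rfl⟩ : ∃ t : ℝ, 0 < t ∧ τ = t ^ 2 :=
    ⟨Real.sqrt τ, Real.sqrt_pos.2 hτ, (Real.sq_sqrt hτ.le).symm⟩
  -- the pairing, the similarity `S` and the correction `κ`
  let b : X → X → ℝ := fun x y => t ^ 2 * ⟪E x + c, y⟫ + ⟪w, x⟫ + β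
  let S : X → X := fun x => (t ^ 2)⁻¹ • (x + E.symm (c - w))
  let κ : X → ℝ := fun x => ⟪w, x⟫ + β - t ^ 2 * (t ^ 2 * ⟪c, S x⟫) - t ^ 2 * β
  have hS : Function.Surjective S := by
    intro y
    refine ⟨t ^ 2 • y - E.symm (c - w), ?_⟩
    show (t ^ 2)⁻¹ • (t ^ 2 • y - E.symm (c - w) + E.symm (c - w)) = y
    rw [sub_add_cancel, inv_smul_smul₀ hτ.ne']
  have hb : ∀ x y, b x y = t ^ 2 * b y (S x) + κ x := by
    intro x y
    have h1 : t ^ 2 * ⟪E y, S x⟫ = ⟪E x, y⟫ + ⟪c, y⟫ - ⟪w, y⟫ := by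
      have h2 : t ^ 2 * ⟪E y, S x⟫ = ⟪E y, x + E.symm (c - w)⟫ := by
        rw [← real_inner_smul_right]
        congr 1
        show t ^ 2 • (t ^ 2)⁻¹ • (x + E.symm (c - w)) = _
        rw [smul_inv_smul₀ hτ.ne']
      rw [h2, inner_add_right, hE.1 y (E.symm (c - w)), ContinuousLinearEquiv.apply_symm_apply,
        hE.1 y x, real_inner_comm (c - w) y, inner_sub_left, real_inner_comm (E x) y]
      ring
    show t ^ 2 * ⟪E x + c, y⟫ + ⟪w, x⟫ + β = t ^ 2 * (t ^ 2 * ⟪E y + c, S x⟫ + ⟪w, y⟫ + β) +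
      (⟪w, x⟫ + β - t ^ 2 * (t ^ 2 * ⟪c, S x⟫) - t ^ 2 * β)
    rw [inner_add_left, inner_add_left]
    linear_combination (-t ^ 2) * h1
  have hdef : ∀ x y, g₀ (t ^ 2) c w β E x + t ^ 2 * g₀ (t ^ 2) c w β E y - b x y =
      (t / 2) * ⟪E (t • y - x - (1 + t)⁻¹ • E.symm (c - w)),
        t • y - x - (1 + t)⁻¹ • E.symm (c - w)⟫ := fun x y => defect t ht c w β E hE x y
  have hA : ∀ x, g₀ (t ^ 2) c w β E x = (t ^ 2) ^ 2 * g₀ (t ^ 2) c w β E (S x) + κ x := by
    intro x
    have h1 := hdef x (t⁻¹ • (x + (1 + t)⁻¹ • E.symm (c - w)))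
    have h2 := hdef (t⁻¹ • (x + (1 + t)⁻¹ • E.symm (c - w))) (S x)
    have h3 := hb x (t⁻¹ • (x + (1 + t)⁻¹ • E.symm (c - w)))
    rw [smul_inv_smul₀ ht.ne', add_sub_cancel_left, sub_self] at h1
    have h4 : t • S x - t⁻¹ • (x + (1 + t)⁻¹ • E.symm (c - w)) -
        (1 + t)⁻¹ • E.symm (c - w) = 0 := by
      have h1t : (1 + t) ≠ 0 := by positivity
      show t • (t ^ 2)⁻¹ • (x + E.symm (c - w)) - t⁻¹ • (x + (1 + t)⁻¹ • E.symm (c - w)) -
        (1 + t)⁻¹ • E.symm (c - w) = 0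
      have h5 : t • (t ^ 2)⁻¹ • (x + E.symm (c - w)) - t⁻¹ • (x + (1 + t)⁻¹ • E.symm (c - w)) -
        (1 + t)⁻¹ • E.symm (c - w) = (t * (t ^ 2)⁻¹ - t⁻¹) • x +
        (t * (t ^ 2)⁻¹ - t⁻¹ * (1 + t)⁻¹ - (1 + t)⁻¹) • E.symm (c - w) := by
        module
      rw [h5]
      have h6 : t * (t ^ 2)⁻¹ - t⁻¹ = 0 := by field_simp; ring
      have h7 : t * (t ^ 2)⁻¹ - t⁻¹ * (1 + t)⁻¹ - (1 + t)⁻¹ = 0 := by field_simp; ring
      rw [h6, h7, zero_smul, zero_smul, add_zero]
    rw [h4] at h2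
    simp only [map_zero, inner_zero_left, mul_zero] at h1 h2
    rw [h3] at h1
    linear_combination h1 - t ^ 2 * h2
  classical
  -- it suffices to find an admissible function that is somewhere smaller than `g₀`
  suffices hsuff : ∃ f₁ : X → ℝ, (∀ x y, b x y ≤ f₁ x + t ^ 2 * f₁ y) ∧
      (∀ x, f₁ x = (t ^ 2) ^ 2 * f₁ (S x) + κ x) ∧ ∃ x, f₁ x < g₀ (t ^ 2) c w β E x by
    obtain ⟨f₁, h1, h2, x₀, h3⟩ := hsuff
    obtain ⟨f, hf1, hf2⟩ := exists_le_solution (t ^ 2) hτ b S hS κ hb f₁ h1 h2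
    exact ⟨f, isSolution_coe (t ^ 2) hτ c w β E f hf2, x₀, (hf1 x₀).trans_lt h3⟩
  by_cases ht1 : t = 1
  · subst ht1
    have hcw : c ≠ w := fun hcw => h ⟨one_pow 2, hcw⟩
    set d : X := E.symm (c - w) with hd
    have hd0 : d ≠ 0 := by
      intro h0
      apply hcw
      have h1 : c - w = 0 := by
        rw [← ContinuousLinearEquiv.apply_symm_apply E (c - w), ← hd, h0, map_zero]
      exact sub_eq_zero.1 h1
    have hBd : 0 < ⟪E d, d⟫ := hE.2 d hd0
    let O : Set X := {x | ∃ k : ℤ, x = (k : ℝ) • d}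
    have hSO : ∀ x, S x ∈ O ↔ x ∈ O := by
      intro x
      have hSx : S x = x + d := by
        show ((1 : ℝ) ^ 2)⁻¹ • (x + d) = x + d
        rw [one_pow, inv_one, one_smul]
      rw [hSx]
      constructor
      · rintro ⟨k, hk⟩
        refine ⟨k - 1, ?_⟩
        rw [eq_sub_of_add_eq hk]
        push_cast
        module
      · rintro ⟨k, hk⟩
        refine ⟨k + 1, ?_⟩
        rw [hk]
        push_cast
        module
    let u : X → ℝ := fun x => if x ∈ O then -(⟪E d, d⟫ / 16) else ⟪E d, d⟫ / 16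
    refine ⟨fun x => g₀ (1 ^ 2) c w β E x + u x, ?_, ?_, ⟨(0 : X), ?_⟩⟩
    · intro x y
      have h1 := hdef x y
      have h2 := inner_nonneg_of_posDef E hE ((1 : ℝ) • y - x - (1 + 1 : ℝ)⁻¹ • d)
      show b x y ≤ g₀ (1 ^ 2) c w β E x + u x + 1 ^ 2 * (g₀ (1 ^ 2) c w β E y + u y)
      by_cases hx : x ∈ O
      · by_cases hy : y ∈ O
        · obtain ⟨k, rfl⟩ := id hx
          obtain ⟨l, rfl⟩ := id hy
          have h3 : (1 : ℝ) • (l : ℝ) • d - (k : ℝ) • d - (1 + 1 : ℝ)⁻¹ • d =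
              ((l : ℝ) - k - 1 / 2) • d := by
            norm_num
            module
          rw [h3, map_smul, inner_smul_left, inner_smul_right] at h1
          have h4 : (1 : ℝ) / 4 ≤ ((l : ℝ) - k - 1 / 2) * ((l : ℝ) - k - 1 / 2) := by
            have h5 : (l - k : ℤ) ≤ 0 ∨ 1 ≤ (l - k : ℤ) := by omega
            rcases h5 with h5 | h5
            · have h6 : ((l - k : ℤ) : ℝ) ≤ 0 := by exact_mod_cast h5
              push_cast at h6
              nlinarith
            · have h6 : (1 : ℝ) ≤ ((l - k : ℤ) : ℝ) := by exact_mod_cast h5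
              push_cast at h6
              nlinarith
          have h7 : u ((k : ℝ) • d) = -(⟪E d, d⟫ / 16) := if_pos hx
          have h8 : u ((l : ℝ) • d) = -(⟪E d, d⟫ / 16) := if_pos hy
          rw [h7, h8]
          simp only [RCLike.conj_to_real] at h1
          nlinarith [mul_le_mul_of_nonneg_right h4 hBd.le]
        · have h7 : u x = -(⟪E d, d⟫ / 16) := if_pos hx
          have h8 : u y = ⟪E d, d⟫ / 16 := if_neg hy
          rw [h7, h8]
          linarith
      · have h7 : u x = ⟪E d, d⟫ / 16 := if_neg hx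
        have h8 : -(⟪E d, d⟫ / 16) ≤ u y := by
          by_cases hy : y ∈ O
          · exact (if_pos hy : u y = _).ge
          · have h9 : u y = ⟪E d, d⟫ / 16 := if_neg hy
            rw [h9]
            linarith
        rw [h7]
        linarith
    · intro x
      have h1 : u (S x) = u x := by
        by_cases hx : x ∈ O
        · exact (if_pos ((hSO x).2 hx)).trans (if_pos hx).symm
        · exact (if_neg fun h => hx ((hSO x).1 h)).trans (if_neg hx).symm
      show g₀ (1 ^ 2) c w β E x + u x = (1 ^ 2) ^ 2 * (g₀ (1 ^ 2) c w β E (S x) + u (S x)) + κ x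
      rw [h1]
      have := hA x
      linear_combination this
    · have h1 : (0 : X) ∈ O := ⟨0, by simp⟩
      have h2 : u 0 = -(⟪E d, d⟫ / 16) := if_pos h1
      show g₀ (1 ^ 2) c w β E 0 + u 0 < g₀ (1 ^ 2) c w β E 0
      rw [h2]
      linarith
  · -- `τ ≠ 1`
    have ht2 : t ^ 2 - 1 ≠ 0 := by
      intro h0
      have h1 : (t - 1) * (t + 1) = 0 := by linear_combination h0
      rcases mul_eq_zero.1 h1 with h2 | h2
      · exact ht1 (by linarith)
      · linarith
    set d : X := E.symm (c - w) with hd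
    obtain ⟨v₀, hv₀⟩ := exists_ne (0 : X)
    let z : X := (t ^ 2 - 1)⁻¹ • d
    let O : Set X := {x | ∃ k : ℤ, x - z = ((t ^ 2) ^ k) • v₀}
    have hSz : ∀ x, S x - z = (t ^ 2)⁻¹ • (x - z) := by
      intro x
      show (t ^ 2)⁻¹ • (x + d) - (t ^ 2 - 1)⁻¹ • d = (t ^ 2)⁻¹ • (x - (t ^ 2 - 1)⁻¹ • d)
      have h5 : (t ^ 2)⁻¹ • (x + d) - (t ^ 2 - 1)⁻¹ • d - (t ^ 2)⁻¹ • (x - (t ^ 2 - 1)⁻¹ • d) =
          ((t ^ 2)⁻¹ - (t ^ 2 - 1)⁻¹ + (t ^ 2)⁻¹ * (t ^ 2 - 1)⁻¹) • d := by
        module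
      have h6 : (t ^ 2)⁻¹ - (t ^ 2 - 1)⁻¹ + (t ^ 2)⁻¹ * (t ^ 2 - 1)⁻¹ = 0 := by
        field_simp
        ring
      rw [h6, zero_smul] at h5
      exact sub_eq_zero.1 h5
    have hSO : ∀ x, S x ∈ O ↔ x ∈ O := by
      intro x
      constructor
      · rintro ⟨k, hk⟩
        refine ⟨k + 1, ?_⟩
        rw [hSz] at hk
        rw [zpow_add_one₀ hτ.ne', mul_comm, mul_smul, ← hk, smul_inv_smul₀ hτ.ne']
      · rintro ⟨k, hk⟩
        refine ⟨k - 1, ?_⟩
        rw [hSz, hk, zpow_sub_one₀ hτ.ne', mul_comm, mul_smul]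
    let m : X → ℝ := fun x => if x ∈ O then t ^ 2 / (1 + t ^ 2) else 1 + t ^ 2
    have hmpos : ∀ x, 0 < m x := by
      intro x
      by_cases hx : x ∈ O
      · rw [show m x = t ^ 2 / (1 + t ^ 2) from if_pos hx]
        positivity
      · rw [show m x = 1 + t ^ 2 from if_neg hx]
        positivity
    have hmS : ∀ x, m (S x) = m x := by
      intro x
      by_cases hx : x ∈ O
      · exact (if_pos ((hSO x).2 hx)).trans (if_pos hx).symm
      · exact (if_neg fun h => hx ((hSO x).1 h)).trans (if_neg hx).symm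
    have h1t : (1 + t) ≠ 0 := by positivity
    have hcent : ∀ x y, t • y - x - (1 + t)⁻¹ • d = t • (y - z) - (x - z) := by
      intro x y
      have h5 : t • y - x - (1 + t)⁻¹ • d - (t • (y - z) - (x - z)) =
          (-(1 + t)⁻¹ + (t - 1) * (t ^ 2 - 1)⁻¹) • d := by
        show t • y - x - (1 + t)⁻¹ • d - (t • (y - (t ^ 2 - 1)⁻¹ • d) - (x - (t ^ 2 - 1)⁻¹ • d)) =
          (-(1 + t)⁻¹ + (t - 1) * (t ^ 2 - 1)⁻¹) • d
        module
      have h6 : -(1 + t)⁻¹ + (t - 1) * (t ^ 2 - 1)⁻¹ = 0 := by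
        field_simp
        ring
      rw [h6, zero_smul] at h5
      exact sub_eq_zero.1 h5
    -- expansion of the form
    have hexp : ∀ (p q : ℝ) (x y : X), ⟪E (p • y - q • x), p • y - q • x⟫ =
        p ^ 2 * ⟪E y, y⟫ - 2 * (p * q) * ⟪E x, y⟫ + q ^ 2 * ⟪E x, x⟫ := by
      intro p q x y
      have e1 : ⟪E y, x⟫ = ⟪E x, y⟫ := by
        rw [hE.1 y x, real_inner_comm]
      simp only [map_sub, map_smul, inner_sub_left, inner_sub_right, inner_smul_left,
        inner_smul_right, e1, RCLike.conj_to_real]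
      ring
    let B : X → ℝ := fun x => ⟪E (x - z), x - z⟫
    have hB0 : ∀ x, 0 ≤ B x := fun x => inner_nonneg_of_posDef E hE _
    -- the key inequality in centred coordinates
    have hkey : ∀ x y, t ^ 2 * ⟪E (x - z), y - z⟫ ≤ m x * B x + t ^ 2 * (m y * B y) := by
      intro x y
      have hBx := hB0 x
      have hBy := hB0 y
      have h1t2 : (0 : ℝ) < 1 + t ^ 2 := by positivity
      set r : ℝ := ⟪E (x - z), y - z⟫ with hr
      -- if `r ≤ 0` the inequality is trivial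
      rcases le_or_gt r 0 with hr0 | hr0
      · have h3 := mul_nonneg (hmpos x).le hBx
        have h4 := mul_nonneg (hmpos y).le hBy
        nlinarith [mul_nonneg hτ.le h4, mul_nonneg hτ.le (neg_nonneg.2 hr0)]
      by_cases hx : x ∈ O
      · have hmx : m x = t ^ 2 / (1 + t ^ 2) := if_pos hx
        by_cases hy : y ∈ O
        · have hmy : m y = t ^ 2 / (1 + t ^ 2) := if_pos hy
          obtain ⟨k, hk⟩ := hx
          obtain ⟨l, hl⟩ := hy
          have hPQ : 0 ≤ ((t ^ 2) ^ k - (t ^ 2) ^ l) * ((t ^ 2) ^ k - t ^ 2 * (t ^ 2) ^ l) := by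
            have h5 : t ^ 2 * (t ^ 2) ^ l = (t ^ 2) ^ (l + 1) := by
              rw [zpow_add_one₀ hτ.ne']
              ring
            rw [h5]
            rcases le_or_gt 1 (t ^ 2) with h6 | h6
            · rcases le_or_gt k l with h7 | h7
              · have h8 : (t ^ 2) ^ k ≤ (t ^ 2) ^ l := zpow_le_zpow_right₀ h6 h7
                have h9 : (t ^ 2) ^ k ≤ (t ^ 2) ^ (l + 1) := zpow_le_zpow_right₀ h6 (by omega)
                nlinarith
              · have h8 : (t ^ 2) ^ l ≤ (t ^ 2) ^ k := zpow_le_zpow_right₀ h6 h7.le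
                have h9 : (t ^ 2) ^ (l + 1) ≤ (t ^ 2) ^ k := zpow_le_zpow_right₀ h6 (by omega)
                nlinarith
            · rcases le_or_gt k l with h7 | h7
              · have h8 : (t ^ 2) ^ l ≤ (t ^ 2) ^ k :=
                  zpow_le_zpow_right_of_le_one₀ hτ h6.le h7
                have h9 : (t ^ 2) ^ (l + 1) ≤ (t ^ 2) ^ k :=
                  zpow_le_zpow_right_of_le_one₀ hτ h6.le (by omega)
                nlinarith
              · have h8 : (t ^ 2) ^ k ≤ (t ^ 2) ^ l :=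
                  zpow_le_zpow_right_of_le_one₀ hτ h6.le h7.le
                have h9 : (t ^ 2) ^ k ≤ (t ^ 2) ^ (l + 1) :=
                  zpow_le_zpow_right_of_le_one₀ hτ h6.le (by omega)
                nlinarith
          have hV : 0 ≤ ⟪E v₀, v₀⟫ := inner_nonneg_of_posDef E hE _
          have hBx' : B x = ((t ^ 2) ^ k) ^ 2 * ⟪E v₀, v₀⟫ := by
            show ⟪E (x - z), x - z⟫ = _
            rw [hk, map_smul, inner_smul_left, inner_smul_right, RCLike.conj_to_real]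
            ring
          have hBy' : B y = ((t ^ 2) ^ l) ^ 2 * ⟪E v₀, v₀⟫ := by
            show ⟪E (y - z), y - z⟫ = _
            rw [hl, map_smul, inner_smul_left, inner_smul_right, RCLike.conj_to_real]
            ring
          have hr' : r = ((t ^ 2) ^ k) * ((t ^ 2) ^ l) * ⟪E v₀, v₀⟫ := by
            rw [hr, hk, hl, map_smul, inner_smul_left, inner_smul_right, RCLike.conj_to_real]
            ring
          rw [hmx, hmy, hBx', hBy', hr']
          have h10 := mul_nonneg hPQ hV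
          have h11 : t ^ 2 / (1 + t ^ 2) * (((t ^ 2) ^ k) ^ 2 * ⟪E v₀, v₀⟫) +
              t ^ 2 * (t ^ 2 / (1 + t ^ 2) * (((t ^ 2) ^ l) ^ 2 * ⟪E v₀, v₀⟫)) -
              t ^ 2 * (((t ^ 2) ^ k) * ((t ^ 2) ^ l) * ⟪E v₀, v₀⟫) =
              t ^ 2 / (1 + t ^ 2) * ((((t ^ 2) ^ k - (t ^ 2) ^ l) *
                ((t ^ 2) ^ k - t ^ 2 * (t ^ 2) ^ l)) * ⟪E v₀, v₀⟫) := by
            field_simp
            ring
          have h12 : 0 ≤ t ^ 2 / (1 + t ^ 2) * ((((t ^ 2) ^ k - (t ^ 2) ^ l) *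
                ((t ^ 2) ^ k - t ^ 2 * (t ^ 2) ^ l)) * ⟪E v₀, v₀⟫) := by
            positivity
          linarith
        · have hmy : m y = 1 + t ^ 2 := if_neg hy
          have h5 := hexp (1 + t ^ 2) 1 (x - z) (y - z)
          have h6 := inner_nonneg_of_posDef E hE ((1 + t ^ 2) • (y - z) - (1 : ℝ) • (x - z))
          rw [h5] at h6
          rw [hmx, hmy]
          have h7 : 0 ≤ (1 + t ^ 2) ^ 2 * B y - 2 * ((1 + t ^ 2) * 1) * r + 1 ^ 2 * B x := h6
          have h8 : t ^ 2 / (1 + t ^ 2) * B x + t ^ 2 * ((1 + t ^ 2) * B y) - 2 * (t ^ 2 * r) =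
              t ^ 2 / (1 + t ^ 2) * ((1 + t ^ 2) ^ 2 * B y - 2 * ((1 + t ^ 2) * 1) * r +
                1 ^ 2 * B x) := by
            field_simp
            ring
          have h9 : 0 ≤ t ^ 2 / (1 + t ^ 2) * ((1 + t ^ 2) ^ 2 * B y - 2 * ((1 + t ^ 2) * 1) * r +
                1 ^ 2 * B x) := by
            positivity
          have h10 : 0 ≤ t ^ 2 * r := by positivity
          linarith
      · have hmx : m x = 1 + t ^ 2 := if_neg hx
        by_cases hy : y ∈ O
        · have hmy : m y = t ^ 2 / (1 + t ^ 2) := if_pos hy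
          have h5 := hexp (t ^ 2) (1 + t ^ 2) (x - z) (y - z)
          have h6 := inner_nonneg_of_posDef E hE (t ^ 2 • (y - z) - (1 + t ^ 2) • (x - z))
          rw [h5] at h6
          rw [hmx, hmy]
          have h7 : 0 ≤ (t ^ 2) ^ 2 * B y - 2 * (t ^ 2 * (1 + t ^ 2)) * r + (1 + t ^ 2) ^ 2 * B x := h6
          have h8 : (1 + t ^ 2) * B x + t ^ 2 * (t ^ 2 / (1 + t ^ 2) * B y) - 2 * (t ^ 2 * r) =
              1 / (1 + t ^ 2) * ((t ^ 2) ^ 2 * B y - 2 * (t ^ 2 * (1 + t ^ 2)) * r +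
                (1 + t ^ 2) ^ 2 * B x) := by
            field_simp
            ring
          have h9 : 0 ≤ 1 / (1 + t ^ 2) * ((t ^ 2) ^ 2 * B y - 2 * (t ^ 2 * (1 + t ^ 2)) * r +
                (1 + t ^ 2) ^ 2 * B x) := by
            positivity
          have h10 : 0 ≤ t ^ 2 * r := by positivity
          linarith
        · have hmy : m y = 1 + t ^ 2 := if_neg hy
          have h5 := hexp t 1 (x - z) (y - z)
          have h6 := inner_nonneg_of_posDef E hE (t • (y - z) - (1 : ℝ) • (x - z))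
          rw [h5] at h6
          rw [hmx, hmy]
          have h7 : 0 ≤ t ^ 2 * B y - 2 * (t * 1) * r + 1 ^ 2 * B x := h6
          have h8 : 0 ≤ (1 + t ^ 2) * (t ^ 2 * B y - 2 * (t * 1) * r + 1 ^ 2 * B x) := by
            positivity
          have h9 : t ^ 2 * r ≤ 2 * t * (1 + t ^ 2) * r := by
            have : t ^ 2 ≤ 2 * t * (1 + t ^ 2) := by nlinarith [sq_nonneg (t - 1), sq_nonneg t]
            exact mul_le_mul_of_nonneg_right this hr0.le
          nlinarith
    let f₁ : X → ℝ := fun x => g₀ (t ^ 2) c w β E x + (m x - t / 2) * B x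
    refine ⟨f₁, ?_, ?_, z + v₀, ?_⟩
    · intro x y
      have h1 := hdef x y
      have h2 := hexp t 1 (x - z) (y - z)
      rw [one_smul] at h2
      rw [hcent, h2] at h1
      have h3 := hkey x y
      show b x y ≤ g₀ (t ^ 2) c w β E x + (m x - t / 2) * B x +
        t ^ 2 * (g₀ (t ^ 2) c w β E y + (m y - t / 2) * B y)
      have h4 : g₀ (t ^ 2) c w β E x + t ^ 2 * g₀ (t ^ 2) c w β E y - b x y =
        t / 2 * (t ^ 2 * B y - 2 * (t * 1) * ⟪E (x - z), y - z⟫ + 1 ^ 2 * B x) := h1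
      nlinarith
    · intro x
      have h1 : B (S x) = (t ^ 2)⁻¹ ^ 2 * B x := by
        show ⟪E (S x - z), S x - z⟫ = (t ^ 2)⁻¹ ^ 2 * ⟪E (x - z), x - z⟫
        rw [hSz, map_smul, inner_smul_left, inner_smul_right, RCLike.conj_to_real]
        ring
      show g₀ (t ^ 2) c w β E x + (m x - t / 2) * B x = (t ^ 2) ^ 2 *
        (g₀ (t ^ 2) c w β E (S x) + (m (S x) - t / 2) * B (S x)) + κ x
      rw [hmS, h1]
      have h2 := hA x
      have h3 : (t ^ 2) ^ 2 * (t ^ 2)⁻¹ ^ 2 = 1 := by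
        field_simp
      linear_combination h2 + (-(m x - t / 2) * B x) * h3
    · have h1 : z + v₀ ∈ O := ⟨0, by simp⟩
      have h2 : m (z + v₀) = t ^ 2 / (1 + t ^ 2) := if_pos h1
      have h3 : B (z + v₀) = ⟪E v₀, v₀⟫ := by
        show ⟪E (z + v₀ - z), z + v₀ - z⟫ = _
        rw [add_sub_cancel_left]
      have h4 : 0 < ⟪E v₀, v₀⟫ := hE.2 v₀ hv₀
      show g₀ (t ^ 2) c w β E (z + v₀) + (m (z + v₀) - t / 2) * B (z + v₀) <
        g₀ (t ^ 2) c w β E (z + v₀)
      rw [h2, h3]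
      have h5 : t ^ 2 / (1 + t ^ 2) - t / 2 < 0 := by
        rw [div_sub_div _ _ (by positivity) two_ne_zero, div_lt_iff₀ (by positivity)]
        have h6 : 0 < (t - 1) ^ 2 := by
          have : t - 1 ≠ 0 := sub_ne_zero.2 ht1
          positivity
        nlinarith
      nlinarith

/-- **Dichotomy.** Let `X ≠ 0` be a real Hilbert space, `τ > 0`, `c, w ∈ X`, `β ∈ ℝ` and `E` a
positive definite invertible operator. Then `f₀` is the one and only function
`f : X → [-∞, ∞]` with `f x = τ f^*(E x + c) + ⟪w, x⟫ + β` for all `x`, if and only if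
`τ = 1` and `c = w`. -/
theorem result {X : Type*} [NormedAddCommGroup X] [InnerProductSpace ℝ X] [CompleteSpace X]
    [Nontrivial X] (τ : ℝ) (hτ : 0 < τ) (c w : X) (β : ℝ) (E : X ≃L[ℝ] X) (hE : IsPosDef E) :
    (∀ f : X → EReal, IsSolution τ c w β E f ↔ f = f₀ τ c w β E) ↔ (τ = 1 ∧ c = w) := by
  constructor
  · intro h
    by_contra hne
    obtain ⟨f, hf, x, hx⟩ := exists_other_solution τ hτ c w β E hE hne
    have h1 := (h _).1 hf
    have h2 := congrFun h1 x
    rw [f₀_eq, EReal.coe_eq_coe_iff] at h2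
    exact hx.ne h2
  · rintro ⟨rfl, rfl⟩ f
    constructor
    · exact unique_of_eq c β E hE f
    · rintro rfl
      exact f₀_isSolution 1 hτ c c β E hE

end Main

end Pool.Agent.Results.MP_02ff8d_an.Dichotomy
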